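import Pool.Agent.N784.HC.StAdm

/-! # Units congruent to 1 modulo 3 are in the kernel of the infinity types of CM fields -/

set_option autoImplicit false

open NumberField Finset

namespace Pool.Agent.N545.HC

open ComplexEmbedding

/-- product of numbers `1 + 3 y` with `y` integral -/
theorem prod_one_add {ι : Type*} (s : Finset ι) (y : ι → ℂ) (hy : ∀ i ∈ s, IsIntegral ℤ (y i)) :
    ∃ z : ℂ, IsIntegral ℤ z ∧ ∏ i ∈ s, (1 + 3 * y i) = 1 + 3 * z := by
  classical
  induction s using Finset.induction_on with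
  | empty => exact ⟨0, isIntegral_zero, by simp⟩
  | insert a s ha ih =>
    obtain ⟨z, hz, h⟩ := ih (fun i hi => hy i (Finset.mem_insert_of_mem hi))
    have ha' := hy a (Finset.mem_insert_self _ _)
    refine ⟨y a + z + 3 * (y a * z), ?_, ?_⟩
    · have h3 : IsIntegral ℤ (3 : ℂ) := by
        have := isIntegral_algebraMap (R := ℤ) (A := ℂ) (x := 3)
        simpa using this
      exact (ha'.add hz).add (h3.mul (ha'.mul hz))
    · rw [Finset.prod_insert ha, h]; ring

section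

variable {F K : Type} [Field F] [NumberField F] [Field K] [NumberField K] [Algebra F K]

open Classical in
theorem fibre (τ : F →+* ℂ) (x : K) :
    ∏ φ ∈ univ.filter (fun φ : K →+* ℂ => φ.comp (algebraMap F K) = τ), φ x =
      τ (Algebra.norm F x) := by
  let _ : Algebra F ℂ := τ.toAlgebra
  have h1 : τ (Algebra.norm F x) = algebraMap F ℂ (Algebra.norm F x) := rfl
  rw [h1, Algebra.norm_eq_prod_embeddings F ℂ x]
  refine Finset.prod_bij' (fun φ hφ => (⟨φ, fun r => RingHom.congr_fun (Finset.mem_filter.1 hφ).2 r⟩ :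
    K →ₐ[F] ℂ)) (fun σ _ => σ.toRingHom) ?_ ?_ ?_ ?_ ?_
  · intro φ hφ
    exact Finset.mem_univ _
  · intro σ _
    refine Finset.mem_filter.2 ⟨Finset.mem_univ _, ?_⟩
    ext r
    exact σ.commutes r
  · intro φ hφ
    rfl
  · intro σ _
    rfl
  · intro φ hφ
    rfl

theorem prod_all (x : F) : ∏ τ : F →+* ℂ, τ x = ((Algebra.norm ℚ x : ℚ) : ℂ) := by
  have h1 : ((Algebra.norm ℚ x : ℚ) : ℂ) = algebraMap ℚ ℂ (Algebra.norm ℚ x) := by simp
  rw [h1, Algebra.norm_eq_prod_embeddings ℚ ℂ x]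
  exact Fintype.prod_equiv (RingHom.equivRatAlgHom F ℂ) _ _ (fun τ => rfl)

/-- an algebraic integer all whose conjugates have product of absolute value less than one is zero -/
theorem eq_zero_of_prod_lt (x : F) (hx : IsIntegral ℤ x) (h : ‖∏ τ : F →+* ℂ, τ x‖ < 1) : x = 0 := by
  rw [prod_all] at h
  have h2 : IsIntegral ℤ (Algebra.norm ℚ x) := Algebra.isIntegral_norm ℚ hx
  obtain ⟨m, hm⟩ := IsIntegrallyClosed.isIntegral_iff.1 h2
  have h3 : (Algebra.norm ℚ x : ℚ) = (m : ℚ) := by rw [← hm]; simp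
  rw [h3] at h
  have h4 : |(m : ℝ)| < 1 := by
    have : ‖(((m : ℚ) : ℂ))‖ = |(m : ℝ)| := by
      rw [Rat.cast_intCast, Complex.norm_intCast]
    rwa [this] at h
  have h5 : m = 0 := by
    have : |m| < 1 := by exact_mod_cast h4
    exact Int.abs_lt_one_iff.1 this
  rw [h5, Int.cast_zero] at h3
  exact Algebra.norm_eq_zero_iff.1 h3

theorem norm_prod_unit (u : (𝓞 K)ˣ) : ‖∏ φ : K →+* ℂ, φ ((u : 𝓞 K) : K)‖ = 1 := by
  rw [prod_all]
  have h := (NumberField.isUnit_iff_norm (K := K) (x := (u : 𝓞 K))).1 u.isUnit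
  have h2 : |(Algebra.norm ℚ ((u : 𝓞 K) : K) : ℚ)| = 1 := by
    have := h
    rw [RingOfIntegers.coe_norm] at this
    exact this
  rw [Complex.norm_ratCast]
  exact_mod_cast h2

/-- a real unit number of absolute value one, congruent to one modulo three, is one -/
theorem eq_one (P z : ℂ) (hz : IsIntegral ℤ z) (hP : P = 1 + 3 * z) (hr : (starRingEnd ℂ) P = P)
    (hn : ‖P‖ = 1) : P = 1 := by
  obtain ⟨r, hr⟩ := Complex.conj_eq_iff_real.1 hr
  rw [hr, Complex.norm_real] at hn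
  rcases (abs_eq one_pos.le).1 hn with h | h
  · rw [hr, h]; simp
  · exfalso
    rw [hr, h] at hP
    have h3 : z = (((-2/3 : ℚ)) : ℂ) := by
      push_cast at hP ⊢
      linear_combination (-1/3 : ℂ) * hP
    rw [h3] at hz
    have h4 : IsIntegral ℤ (-2/3 : ℚ) :=
      (isIntegral_algHom_iff (algebraMap ℚ ℂ).toIntAlgHom (algebraMap ℚ ℂ).injective).1 (by
        simpa using hz)
    obtain ⟨m, hm⟩ := IsIntegrallyClosed.isIntegral_iff.1 h4
    have h5 : (m : ℚ) = -2/3 := by rw [← hm]; simp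
    have h6 : (3 * m : ℤ) = -2 := by
      have : (3 * m : ℚ) = -2 := by rw [h5]; norm_num
      exact_mod_cast this
    omega

end

theorem t_adm : Pool.Agent.N784.HC.StAdm := by
  intro F K _ _ _ _ _ _ k w hk0 hkw u ⟨b, hb⟩
  classical
  set x : K := ((u : 𝓞 K) : K) with hx
  set v : F := Algebra.norm F x with hv
  have hxb : x = 1 + 3 * (b : K) := by
    have := congrArg (fun y : 𝓞 K => (y : K)) hb
    simp only [map_sub, map_one, map_mul, map_ofNat] at this
    rw [hx]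
    linear_combination this
  have hbi : IsIntegral ℤ (b : K) := RingOfIntegers.isIntegral_coe b
  have hbφ : ∀ φ : K →+* ℂ, IsIntegral ℤ (φ (b : K)) := fun φ => hbi.map φ.toIntAlgHom
  -- the element `c`
  obtain ⟨c, hci, hc⟩ : ∃ c : F, IsIntegral ℤ c ∧ v = 1 + 3 * c := by
    obtain ⟨τ⟩ : Nonempty (F →+* ℂ) := inferInstance
    obtain ⟨z, hz, h⟩ := prod_one_add
      (univ.filter (fun φ : K →+* ℂ => φ.comp (algebraMap F K) = τ)) (fun φ => φ (b : K))
      (fun φ _ => hbφ φ)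
    have h1 : τ v = 1 + 3 * z := by
      rw [← h, hv, ← fibre τ x]
      refine prod_congr rfl fun φ _ => ?_
      rw [hxb, map_add, map_mul, map_one, map_ofNat]
    refine ⟨(v - 1) / 3, ?_, by ring⟩
    refine (isIntegral_algHom_iff τ.toIntAlgHom τ.injective).1 ?_
    have : τ ((v - 1) / 3) = z := by
      rw [map_div₀, map_sub, h1, map_one, map_ofNat]; ring
    change IsIntegral ℤ (τ ((v - 1) / 3))
    rw [this]
    exact hz
  have hnv : ‖∏ τ : F →+* ℂ, τ v‖ = 1 := by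
    have : ∏ τ : F →+* ℂ, τ v = ∏ φ : K →+* ℂ, φ x := by
      rw [← Finset.prod_fiberwise univ (fun φ : K →+* ℂ => φ.comp (algebraMap F K))]
      exact prod_congr rfl (fun τ _ => (fibre τ x).symm)
    rw [this]
    exact norm_prod_unit u
  rw [norm_prod] at hnv
  have hv0 : ∀ τ : F →+* ℂ, ‖τ v‖ ≠ 0 := by
    intro τ h
    rw [Finset.prod_eq_zero (mem_univ τ) h] at hnv
    exact zero_ne_one hnv
  -- reality
  have hcc : c - IsCMField.complexConj F c = 0 := by
    refine eq_zero_of_prod_lt _ ?_ ?_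
    · exact hci.sub (hci.map ((IsCMField.complexConj F : F →+* F)).toIntAlgHom)
    · rw [norm_prod]
      have h1 : ∀ τ : F →+* ℂ, ‖τ (c - IsCMField.complexConj F c)‖ ≤ 2 / 3 * ‖τ v‖ := by
        intro τ
        have h2 : τ (c - IsCMField.complexConj F c) = (τ v - (starRingEnd ℂ) (τ v)) / 3 := by
          rw [map_sub, IsCMField.complexEmbedding_complexConj, hc]
          simp only [map_add, map_mul, map_one, map_ofNat]
          ring
        rw [h2, norm_div]
        have h3 : ‖τ v - (starRingEnd ℂ) (τ v)‖ ≤ 2 * ‖τ v‖ := by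
          refine (norm_sub_le _ _).trans ?_
          rw [Complex.norm_conj]; linarith
        have h4 : ‖(3 : ℂ)‖ = 3 := by simp
        rw [h4]
        linarith
      have h5 : ∏ τ : F →+* ℂ, ‖τ (c - IsCMField.complexConj F c)‖ ≤
          ∏ τ : F →+* ℂ, (2 / 3 * ‖τ v‖) :=
        prod_le_prod (fun τ _ => norm_nonneg _) (fun τ _ => h1 τ)
      rw [prod_mul_distrib, hnv, prod_const, mul_one] at h5
      refine lt_of_le_of_lt h5 ?_
      refine pow_lt_one₀ (by norm_num) (by norm_num) ?_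
      exact (Finset.card_pos.2 univ_nonempty).ne'
  have hcr : ∀ τ : F →+* ℂ, (starRingEnd ℂ) (τ c) = τ c := by
    intro τ
    have := congrArg τ (sub_eq_zero.1 hcc)
    rw [IsCMField.complexEmbedding_complexConj] at this
    exact this.symm
  have hvc : ∀ τ : F →+* ℂ, τ v = 1 + 3 * τ c := by
    intro τ
    rw [hc, map_add, map_mul, map_one, map_ofNat]
  have hvr : ∀ τ : F →+* ℂ, (starRingEnd ℂ) (τ v) = τ v := by
    intro τ
    rw [hvc, map_add, map_mul, map_one, map_ofNat, hcr]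
  -- signs
  have hs2 : ∀ τ : F →+* ℂ, (τ v / (‖τ v‖ : ℂ)) ^ 2 = 1 := by
    intro τ
    obtain ⟨r, hr⟩ := Complex.conj_eq_iff_real.1 (hvr τ)
    have h0 := hv0 τ
    rw [hr, Complex.norm_real, Real.norm_eq_abs] at h0 ⊢
    have hr0 : r ≠ 0 := abs_ne_zero.1 h0
    rw [div_pow, ← Complex.ofReal_pow, ← Complex.ofReal_pow, sq_abs]
    exact div_self (by exact_mod_cast pow_ne_zero 2 hr0)
  have hred : ∏ φ : K →+* ℂ, (φ x / (‖φ x‖ : ℂ)) ^ (k (φ.comp (algebraMap F K))) =
      ∏ τ : F →+* ℂ, (τ v / (‖τ v‖ : ℂ)) ^ (k τ) := by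
    rw [← Finset.prod_fiberwise univ (fun φ : K →+* ℂ => φ.comp (algebraMap F K))]
    refine prod_congr rfl fun τ _ => ?_
    have h1 : ∏ φ ∈ univ.filter (fun φ : K →+* ℂ => φ.comp (algebraMap F K) = τ),
        (φ x / (‖φ x‖ : ℂ)) ^ (k (φ.comp (algebraMap F K))) =
        ∏ φ ∈ univ.filter (fun φ : K →+* ℂ => φ.comp (algebraMap F K) = τ),
        (φ x / (‖φ x‖ : ℂ)) ^ (k τ) :=
      prod_congr rfl fun φ hφ => by rw [(mem_filter.1 hφ).2]
    rw [h1, prod_pow, prod_div_distrib, fibre τ x]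
    congr 2
    rw [hv, ← fibre τ x, norm_prod]
    push_cast
    rfl
  rw [hred]
  have hkc : ∀ τ : F →+* ℂ, k τ = 0 ∨ k (conjugate τ) = 0 := hk0
  rcases Nat.mod_two_eq_zero_or_one w with hw | hw
  · refine prod_eq_one fun τ _ => ?_
    have h1 := hkw τ
    have h2 := hk0 τ
    obtain ⟨m, hm⟩ : ∃ m, k τ = 2 * m := ⟨k τ / 2, by omega⟩
    rw [hm, pow_mul, hs2, one_pow]
  · -- the half
    set H : Finset (F →+* ℂ) := univ.filter (fun τ => k τ % 2 = 1) with hH
    have hpar : ∀ τ : F →+* ℂ, k (conjugate τ) % 2 = 1 ↔ ¬ k τ % 2 = 1 := by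
      intro τ
      have h1 := hkw τ
      have h2 := hk0 τ
      omega
    have h1 : ∏ τ : F →+* ℂ, (τ v / (‖τ v‖ : ℂ)) ^ (k τ) = ∏ τ ∈ H, (τ v / (‖τ v‖ : ℂ)) := by
      rw [hH, prod_filter]
      refine prod_congr rfl fun τ _ => ?_
      split_ifs with h
      · obtain ⟨m, hm⟩ : ∃ m, k τ = 2 * m + 1 := ⟨k τ / 2, by omega⟩
        rw [hm, pow_succ, pow_mul, hs2, one_pow, one_mul]
      · obtain ⟨m, hm⟩ : ∃ m, k τ = 2 * m := ⟨k τ / 2, by omega⟩
        rw [hm, pow_mul, hs2, one_pow]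
    rw [h1, prod_div_distrib]
    obtain ⟨z, hz, hzP⟩ := prod_one_add H (fun τ => τ c) (fun τ _ => hci.map τ.toIntAlgHom)
    have hP : ∏ τ ∈ H, τ v = 1 + 3 * z := by
      rw [← hzP]
      exact prod_congr rfl fun τ _ => hvc τ
    have hPr : (starRingEnd ℂ) (∏ τ ∈ H, τ v) = ∏ τ ∈ H, τ v := by
      rw [map_prod]
      exact prod_congr rfl fun τ _ => hvr τ
    have hPn : ‖∏ τ ∈ H, τ v‖ = 1 := by
      have h2 : ∏ τ ∈ univ.filter (fun τ : F →+* ℂ => ¬ k τ % 2 = 1), ‖τ v‖ =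
          ∏ τ ∈ H, ‖τ v‖ := by
        refine Finset.prod_bij' (fun τ _ => conjugate τ) (fun τ _ => conjugate τ) ?_ ?_ ?_ ?_ ?_
        · intro τ hτ
          exact mem_filter.2 ⟨mem_univ _, (hpar τ).2 (mem_filter.1 hτ).2⟩
        · intro τ hτ
          refine mem_filter.2 ⟨mem_univ _, fun h => (hpar τ).1 h (mem_filter.1 hτ).2⟩
        · intro τ _
          ext y; simp
        · intro τ _
          ext y; simp
        · intro τ _
          rw [conjugate_coe_eq, Complex.norm_conj]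
      have h3 := Finset.prod_filter_mul_prod_filter_not univ (fun τ : F →+* ℂ => k τ % 2 = 1)
        (fun τ => ‖τ v‖)
      rw [h2, hnv] at h3
      rw [norm_prod]
      have h4 : 0 ≤ ∏ τ ∈ H, ‖τ v‖ := prod_nonneg fun τ _ => norm_nonneg _
      have h5 : (∏ τ ∈ H, ‖τ v‖) * (∏ τ ∈ H, ‖τ v‖) = 1 := h3
      nlinarith
    have hP1 := eq_one _ z hz hP hPr hPn
    have hPn' : ∏ τ ∈ H, (‖τ v‖ : ℂ) = 1 := by
      rw [norm_prod] at hPn
      exact_mod_cast hPn
    rw [hP1, hPn', div_one]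

end Pool.Agent.N545.HC
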