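import Mathlib

/-! Free groups of rank continuum in `SL(2, ℝ)` generated by parabolic elements. -/

set_option autoImplicit false

namespace Pool.Agent.N545.HC

open UpperHalfPlane Matrix MatrixGroups Cardinal

/-- The parabolic matrix with the fixed point `t`. -/
def Gm {R : Type*} [CommRing R] (t : R) : SL(2, R) :=
  ⟨!![1 + 4 * t, -4 * t ^ 2; 4, 1 - 4 * t], by rw [Matrix.det_fin_two_of]; ring⟩

/-- The homomorphism of the free group. -/
def rho {K R : Type*} [CommRing R] (t : K → R) : FreeGroup K →* SL(2, R) :=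
  FreeGroup.lift fun k => Gm (t k)

lemma map_Gm {R S : Type*} [CommRing R] [CommRing S] (f : R →+* S) (t : R) :
    Matrix.SpecialLinearGroup.map f (Gm t) = Gm (f t) := by
  have h4 : f 4 = 4 := map_ofNat f 4
  ext i j
  fin_cases i <;> fin_cases j <;> simp [Gm, h4]

lemma map_rho {K R S : Type*} [CommRing R] [CommRing S] (f : R →+* S) (t : K → R)
    (w : FreeGroup K) : Matrix.SpecialLinearGroup.map f (rho t w) = rho (fun k => f (t k)) w := by
  have h : (Matrix.SpecialLinearGroup.map f).comp (rho t) = rho (fun k => f (t k)) := by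
    ext k : 1
    simp only [MonoidHom.coe_comp, Function.comp_apply, rho, FreeGroup.lift_apply_of, map_Gm]
  exact DFunLike.congr_fun h w

lemma rho_map {K L R : Type*} [CommRing R] (t : L → R) (e : K → L) (w : FreeGroup K) :
    rho t (FreeGroup.map e w) = rho (fun k => t (e k)) w := by
  have h : (rho t).comp (FreeGroup.map e) = rho (fun k => t (e k)) := by
    ext k : 1
    simp only [MonoidHom.coe_comp, Function.comp_apply, rho, FreeGroup.lift_apply_of,
      FreeGroup.map.of]
  exact DFunLike.congr_fun h w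

lemma coe_Gm_smul (t : ℝ) (z : ℍ) :
    ((Gm t • z : ℍ) : ℂ) = ((1 + 4 * t) * z - 4 * t ^ 2) / (4 * z + (1 - 4 * t)) := by
  rw [coe_specialLinearGroup_apply]
  simp [Gm]
  ring

lemma den_ne (t : ℝ) (z : ℍ) : 4 * ((z : ℂ) - t) + 1 ≠ 0 := by
  intro h
  have h1 := congrArg Complex.im h
  simp at h1
  exact z.im_ne_zero h1

lemma sub_ne (t : ℝ) (z : ℍ) : ((z : ℂ) - t) ≠ 0 := by
  intro h
  have h1 := congrArg Complex.im h
  simp at h1
  exact z.im_ne_zero h1

lemma Gm_smul_sub (t : ℝ) (z : ℍ) :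
    ((Gm t • z : ℍ) : ℂ) - t = ((z : ℂ) - t) / (4 * ((z : ℂ) - t) + 1) := by
  rw [coe_Gm_smul]
  have h := den_ne t z
  have h' : 4 * (z : ℂ) + (1 - 4 * t) ≠ 0 := by
    intro h2; apply h; rw [← h2]; ring
  field_simp
  ring

lemma Gm_inv_smul_sub (t : ℝ) (z : ℍ) :
    (((Gm t)⁻¹ • z : ℍ) : ℂ) - t = ((z : ℂ) - t) / (1 - 4 * ((z : ℂ) - t)) := by
  have h := Gm_smul_sub t ((Gm t)⁻¹ • z)
  rw [smul_inv_smul] at h
  have h1 := den_ne t ((Gm t)⁻¹ • z)
  have h2 : 1 - 4 * ((z : ℂ) - t) ≠ 0 := by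
    intro h3
    have h4 := congrArg Complex.im h3
    simp at h4
    exact z.im_ne_zero h4
  rw [eq_div_iff h1] at h
  rw [eq_div_iff h2]
  linear_combination -h

/-- Ping-pong: the free group with integer fixed points. -/
lemma rho_nat_injective : Function.Injective (rho (fun n : ℕ => (n : ℝ))) := by
  let X : ℕ → Set ℍ := fun n => {z | 2 * Complex.normSq ((z : ℂ) - (n : ℝ)) < ((z : ℂ) - (n : ℝ)).re}
  let Y : ℕ → Set ℍ := fun n => {z | ((z : ℂ) - (n : ℝ)).re ≤ -2 * Complex.normSq ((z : ℂ) - (n : ℝ))}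
  have hX1 : ∀ n z, z ∈ X n → (n : ℝ) < z.re ∧ z.re < n + 1 / 2 := by
    intro n z hz
    change 2 * Complex.normSq ((z : ℂ) - (n : ℝ)) < ((z : ℂ) - (n : ℝ)).re at hz
    rw [Complex.normSq_apply] at hz
    simp only [Complex.sub_re, Complex.sub_im, Complex.ofReal_re, Complex.ofReal_im, coe_re,
      coe_im, sub_zero] at hz
    have := z.im_pos
    constructor <;> nlinarith
  have hY1 : ∀ n z, z ∈ Y n → (n : ℝ) - 1 / 2 < z.re ∧ z.re < n := by
    intro n z hz
    change ((z : ℂ) - (n : ℝ)).re ≤ -2 * Complex.normSq ((z : ℂ) - (n : ℝ)) at hz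
    rw [Complex.normSq_apply] at hz
    simp only [Complex.sub_re, Complex.sub_im, Complex.ofReal_re, Complex.ofReal_im, coe_re,
      coe_im, sub_zero] at hz
    have := z.im_pos
    constructor <;> nlinarith
  have hne : ∀ m n : ℕ, m ≠ n → (m : ℝ) + 1 ≤ n ∨ (n : ℝ) + 1 ≤ m := by
    intro m n h
    rcases Nat.lt_or_gt_of_ne h with h | h
    · left; exact_mod_cast h
    · right; exact_mod_cast h
  refine FreeGroup.injective_lift_of_ping_pong (fun n : ℕ => Gm (n : ℝ)) X Y ?_ ?_ ?_ ?_ ?_ ?_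
  · intro n
    refine ⟨⟨⟨n + 1 / 4, 1 / 8⟩, by norm_num⟩, ?_⟩
    change 2 * Complex.normSq ((⟨n + 1 / 4, 1 / 8⟩ : ℂ) - (n : ℝ)) <
      ((⟨n + 1 / 4, 1 / 8⟩ : ℂ) - (n : ℝ)).re
    rw [Complex.normSq_apply]
    simp only [Complex.sub_re, Complex.sub_im, Complex.ofReal_re, Complex.ofReal_im]
    norm_num
  · intro m n h
    refine Set.disjoint_left.2 fun z h1 h2 => ?_
    have := hX1 _ _ h1
    have := hX1 _ _ h2
    rcases hne m n h with h | h <;> linarith
  · intro m n h
    refine Set.disjoint_left.2 fun z h1 h2 => ?_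
    have := hY1 _ _ h1
    have := hY1 _ _ h2
    rcases hne m n h with h | h <;> linarith
  · intro m n
    refine Set.disjoint_left.2 fun z h1 h2 => ?_
    have := hX1 _ _ h1
    have := hY1 _ _ h2
    by_cases h : m = n
    · subst h; linarith
    · rcases hne m n h with h | h <;> linarith
  · rintro n _ ⟨z, hz, rfl⟩
    change 2 * Complex.normSq (((Gm (n : ℝ) • z : ℍ) : ℂ) - (n : ℝ)) <
      (((Gm (n : ℝ) • z : ℍ) : ℂ) - (n : ℝ)).re
    rw [Gm_smul_sub]
    have hz' : ¬ (((z : ℂ) - (n : ℝ)).re ≤ -2 * Complex.normSq ((z : ℂ) - (n : ℝ))) := hz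
    set y := (z : ℂ) - (n : ℝ)
    have hne : 4 * y + 1 ≠ 0 := den_ne _ _
    have hpos : 0 < Complex.normSq (4 * y + 1) := Complex.normSq_pos.2 hne
    have e1 : (y / (4 * y + 1)).re = (4 * Complex.normSq y + y.re) / Complex.normSq (4 * y + 1) := by
      rw [Complex.div_re, ← add_div]
      congr 1
      rw [Complex.normSq_apply]
      simp
      ring
    rw [e1, Complex.normSq_div, ← mul_div_assoc]
    apply div_lt_div_of_pos_right _ hpos
    push Not at hz'
    linarith
  · rintro n _ ⟨z, hz, rfl⟩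
    change ((((Gm (n : ℝ))⁻¹ • z : ℍ) : ℂ) - (n : ℝ)).re ≤
      -2 * Complex.normSq ((((Gm (n : ℝ))⁻¹ • z : ℍ) : ℂ) - (n : ℝ))
    rw [Gm_inv_smul_sub]
    have hz' : ¬ (2 * Complex.normSq ((z : ℂ) - (n : ℝ)) < ((z : ℂ) - (n : ℝ)).re) := hz
    have him : ((z : ℂ) - (n : ℝ)).im ≠ 0 := by simpa using z.im_ne_zero
    set y := (z : ℂ) - (n : ℝ)
    have hne : 1 - 4 * y ≠ 0 := by
      intro h
      have h1 := congrArg Complex.im h
      simp at h1
      exact him h1
    have hpos : 0 < Complex.normSq (1 - 4 * y) := Complex.normSq_pos.2 hne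
    have e1 : (y / (1 - 4 * y)).re = (y.re - 4 * Complex.normSq y) / Complex.normSq (1 - 4 * y) := by
      rw [Complex.div_re, ← add_div]
      congr 1
      rw [Complex.normSq_apply]
      simp
      ring
    rw [e1, Complex.normSq_div, ← mul_div_assoc]
    apply div_le_div_of_nonneg_right _ hpos.le
    push Not at hz'
    linarith

/-- The free group is embedded also for algebraically independent parameters. -/
lemma rho_injective {K : Type*} {t : K → ℝ} (ht : AlgebraicIndependent ℚ t) :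
    Function.Injective (rho t) := by
  classical
  rw [injective_iff_map_eq_one]
  intro w hw
  -- the identity holds for the generic parameters
  have h1 : rho (MvPolynomial.X : K → MvPolynomial K ℚ) w = 1 := by
    have hinj : Function.Injective (MvPolynomial.aeval (R := ℚ) t) := ht
    have h2 : Matrix.SpecialLinearGroup.map (MvPolynomial.aeval (R := ℚ) t).toRingHom
        (rho (MvPolynomial.X : K → MvPolynomial K ℚ) w) = 1 := by
      rw [map_rho]
      simpa using hw
    refine Matrix.SpecialLinearGroup.ext _ _ fun i j => ?_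
    apply hinj
    have h3 := congrArg (fun M : SL(2, ℝ) => M.1 i j) h2
    simp only [Matrix.SpecialLinearGroup.coe_one] at h3
    rw [Matrix.SpecialLinearGroup.coe_one]
    by_cases hij : i = j
    · subst hij
      simpa using h3
    · simpa [Matrix.one_apply_ne hij] using h3
  -- so it holds for all parameters
  have h4 : ∀ e : K → ℕ, FreeGroup.map e w = 1 := by
    intro e
    apply rho_nat_injective
    rw [rho_map, map_one]
    have h5 := congrArg (Matrix.SpecialLinearGroup.map
      (MvPolynomial.aeval (R := ℚ) (fun k => ((e k : ℕ) : ℝ))).toRingHom) h1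
    rw [map_rho, map_one] at h5
    simpa using h5
  by_cases hK : Nonempty K
  swap
  · rw [not_nonempty_iff] at hK
    exact Subsingleton.elim _ _
  -- choose an embedding of the letters of `w`
  let s : Finset K := (w.toWord.map Prod.fst).toFinset
  let e : K → ℕ := fun k => if h : k ∈ s then (s.equivFin ⟨k, h⟩ : ℕ) else 0
  let r : ℕ → K := fun n => if h : n < s.card then (s.equivFin.symm ⟨n, h⟩ : K) else hK.some
  have hre : ∀ k ∈ s, r (e k) = k := by
    intro k hk
    simp only [e, r, dif_pos hk, Fin.is_lt, dif_pos, Fin.eta, Equiv.symm_apply_apply]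
  have h6 : FreeGroup.map r (FreeGroup.map e w) = w := by
    conv_rhs => rw [← FreeGroup.mk_toWord (x := w)]
    conv_lhs => rw [← FreeGroup.mk_toWord (x := w)]
    rw [FreeGroup.map.mk, FreeGroup.map.mk, List.map_map]
    congr 1
    conv_rhs => rw [← List.map_id w.toWord]
    apply List.map_congr_left
    rintro ⟨k, b⟩ hx
    have : k ∈ s := by
      simp only [s, List.mem_toFinset, List.mem_map]
      exact ⟨_, hx, rfl⟩
    simp [hre k this]
  rw [← h6, h4, map_one]

/-- There are continuum many algebraically independent real numbers. -/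
lemma exists_indep {K : Type} (hK : #K ≤ 𝔠) : ∃ t : K → ℝ, AlgebraicIndependent ℚ t := by
  obtain ⟨ι, v, hv⟩ := exists_isTranscendenceBasis' ℚ ℝ
  have hcard : 𝔠 ≤ #ι := by
    have h1 : #ℝ ≤ max #(Algebra.adjoin ℚ (Set.range v)) ℵ₀ := by
      have := hv.isAlgebraic
      exact Algebra.IsAlgebraic.cardinalMk_le_max (Algebra.adjoin ℚ (Set.range v)) ℝ
    have h2 : #(Algebra.adjoin ℚ (Set.range v)) = #(MvPolynomial ι ℚ) :=
      (Cardinal.mk_congr hv.1.aevalEquiv.toEquiv).symm
    have h3 : #(MvPolynomial ι ℚ) ≤ max (max #ℚ #ι) ℵ₀ := MvPolynomial.cardinalMk_le_max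
    rw [Cardinal.mk_real, h2] at h1
    by_contra hcon
    push Not at hcon
    have h4 : max (max #ℚ #ι) ℵ₀ < 𝔠 := by
      refine max_lt (max_lt ?_ hcon) aleph0_lt_continuum
      rw [Cardinal.mkRat]; exact aleph0_lt_continuum
    exact absurd h1 (not_le.2 (max_lt (h3.trans_lt h4) aleph0_lt_continuum))
  obtain ⟨e⟩ : Nonempty (K ↪ ι) := by
    rw [← Cardinal.le_def]
    exact hK.trans hcard
  exact ⟨v ∘ e, hv.1.comp e e.injective⟩

/-- The stabilisers in `SL(2, ℝ)` of the points of the hyperbolic plane are commutative. -/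
lemma stab_comm (z : ℍ) (g h : SL(2, ℝ)) (hg : g • z = z) (hh : h • z = z) : g * h = h * g := by
  have key : ∀ g : SL(2, ℝ), g • z = z → g 0 1 = -(g 1 0) * (z.re ^ 2 + z.im ^ 2) ∧
      g 1 1 = g 0 0 - 2 * (g 1 0) * z.re := by
    intro g hg
    have h1 := coe_specialLinearGroup_apply g z
    rw [hg] at h1
    simp only [Algebra.algebraMap_self, RingHom.id_apply] at h1
    have hden : (g 1 0 : ℂ) * z + (g 1 1 : ℂ) ≠ 0 := by
      have := denom_ne_zero (g : GL (Fin 2) ℝ) z
      simpa [denom] using this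
    rw [eq_div_iff hden] at h1
    have hre := congrArg Complex.re h1
    have him := congrArg Complex.im h1
    simp at hre him
    have hpos := z.im_pos
    have h2 : g 1 1 = g 0 0 - 2 * (g 1 0) * z.re := by
      have : z.im * (g 1 1 - (g 0 0 - 2 * (g 1 0) * z.re)) = 0 := by linarith
      rcases mul_eq_zero.1 this with h | h
      · exact absurd h hpos.ne'
      · linarith
    refine ⟨?_, h2⟩
    rw [h2] at hre
    linarith
  obtain ⟨g1, g2⟩ := key g hg
  obtain ⟨h1, h2⟩ := key h hh
  ext i j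
  rw [Matrix.SpecialLinearGroup.coe_mul, Matrix.SpecialLinearGroup.coe_mul, Matrix.mul_apply,
    Matrix.mul_apply, Fin.sum_univ_two, Fin.sum_univ_two]
  fin_cases i <;> fin_cases j <;> simp only [Fin.zero_eta, Fin.mk_one, Fin.isValue]
  · rw [g1, h1]; ring
  · rw [g1, h1, g2, h2]; ring
  · rw [g2, h2]; ring
  · rw [g1, h1]; ring

/-- Powers of the parabolic matrices have no fixed points. -/
lemma Gm_pow_ne (t : ℝ) (n : ℕ) (hn : 0 < n) (z : ℍ) : (Gm t) ^ n • z ≠ z := by
  have key : ∀ z : ℍ, (((Gm t • z : ℍ) : ℂ) - t)⁻¹ = ((z : ℂ) - t)⁻¹ + 4 := by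
    intro z
    rw [Gm_smul_sub, inv_div]
    have := sub_ne t z
    field_simp
    ring
  have h2 : ∀ m : ℕ, ((((Gm t) ^ m • z : ℍ) : ℂ) - t)⁻¹ = ((z : ℂ) - t)⁻¹ + 4 * m := by
    intro m
    induction m with
    | zero => simp
    | succ m ih => rw [pow_succ', mul_smul, key, ih]; push_cast; ring
  intro h
  have h3 := h2 n
  rw [h] at h3
  have h4 : (4 * n : ℂ) = 0 := by linear_combination -h3
  simp at h4
  omega

end Pool.Agent.N545.HC
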