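import Pool.Agent.N545.HC.Orbit
import Pool.Agent.N545.HC.Free

/-! Systems of congruences in the hyperbolic plane. -/

set_option autoImplicit false

namespace Pool.Agent.N545.HC

open UpperHalfPlane Matrix MatrixGroups Cardinal

/-- From a labelling to the partition. -/
lemma finish {I M : Type} (L R : M → Set I) (B : Set I) (f : ℍ → I)
    (H : ∀ x : M ⊕ M, ∃ h : SL(2, ℝ), ∀ p, (f p ∈ B ↔ f (h • p) ∈ Sum.elim L R x)) :
    ∃ A : I → Set ℍ,
        Pairwise (fun j k => Disjoint (A j) (A k)) ∧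
        (⋃ j, A j) = Set.univ ∧
        ∀ i, ∃ g : IsometryEquiv ℍ ℍ,
          g '' (⋃ j ∈ L i, A j) = ⋃ j ∈ R i, A j := by
  have hU : ∀ S : Set I, (⋃ j ∈ S, f ⁻¹' {j}) = f ⁻¹' S := by
    intro S
    ext p
    simp
  refine ⟨fun j => f ⁻¹' {j}, ?_, ?_, ?_⟩
  · intro j k hjk
    refine Set.disjoint_left.2 fun p h1 h2 => hjk ?_
    exact (show f p = j from h1).symm.trans h2
  · ext p; simp
  · intro i
    obtain ⟨h, hh⟩ := H (Sum.inl i)
    obtain ⟨h', hh'⟩ := H (Sum.inr i)
    refine ⟨IsometryEquiv.constSMul (h' * h⁻¹), ?_⟩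
    rw [hU, hU]
    ext p
    simp only [Set.mem_image, Set.mem_preimage, IsometryEquiv.constSMul_apply]
    constructor
    · rintro ⟨q, hq, rfl⟩
      have h1 := hh (h⁻¹ • q)
      rw [smul_inv_smul] at h1
      have h2 := hh' (h⁻¹ • q)
      rw [mul_smul]
      exact h2.1 (h1.2 hq)
    · intro hp
      refine ⟨h • h'⁻¹ • p, ?_, ?_⟩
      · have h2 := hh' (h'⁻¹ • p)
        rw [smul_inv_smul] at h2
        exact (hh _).1 (h2.2 hp)
      · rw [mul_smul, inv_smul_smul, smul_inv_smul]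

/-- The translation by one. -/
def T1 : SL(2, ℝ) := ⟨!![1, 1; 0, 1], by rw [Matrix.det_fin_two_of]; ring⟩

lemma T1_smul_re (z : ℍ) : (T1 • z).re = z.re + 1 := by
  have h := coe_specialLinearGroup_apply T1 z
  have h1 := congrArg Complex.re h
  simpa [T1] using h1

theorem main (I M : Type) (L R : M → Set I) (hI : Nonempty I)
    (hM : #M ≤ 𝔠)
    (hPN : ∀ i, (L i).Nonempty ∧ L i ≠ Set.univ ∧ (R i).Nonempty ∧ R i ≠ Set.univ) :
    ∃ A : I → Set ℍ,
        Pairwise (fun j k => Disjoint (A j) (A k)) ∧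
        (⋃ j, A j) = Set.univ ∧
        ∀ i, ∃ g : IsometryEquiv ℍ ℍ,
          g '' (⋃ j ∈ L i, A j) = ⋃ j ∈ R i, A j := by
  classical
  by_cases hMe : IsEmpty M
  · obtain ⟨i⟩ := hI
    exact finish L R Set.univ (fun _ => i) (fun x => by
      rcases x with x | x <;> exact (hMe.false x).elim)
  rw [not_isEmpty_iff] at hMe
  obtain ⟨i0⟩ := hMe
  set S : M ⊕ M → Set I := Sum.elim L R with hS
  have hSPN : ∀ x, PN (S x) := by
    rintro (x | x)
    · exact ⟨(hPN x).1, (hPN x).2.1⟩
    · exact ⟨(hPN x).2.2.1, (hPN x).2.2.2⟩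
  set B : Set I := L i0 with hB
  have hBS : S (Sum.inl i0) = B := rfl
  have hBPN : PN B := hSPN (Sum.inl i0)
  have PNc : ∀ T : Set I, PN T → PN Tᶜ := by
    rintro T ⟨h1, h2⟩
    refine ⟨Set.nonempty_compl.2 h2, fun h => ?_⟩
    rw [Set.compl_univ_iff] at h
    exact h1.ne_empty h
  -- representatives of complementary pairs
  let s : Setoid (Set I) :=
    { r := fun S T => S = T ∨ S = Tᶜ
      iseqv := ⟨fun S => Or.inl rfl, fun {S T} h => by
          rcases h with h | h
          · exact Or.inl h.symm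
          · exact Or.inr (by rw [h, compl_compl]),
        fun {S T U} h1 h2 => by
          rcases h1 with h1 | h1 <;> rcases h2 with h2 | h2
          · exact Or.inl (h1.trans h2)
          · exact Or.inr (h1.trans h2)
          · exact Or.inr (by rw [h1, h2])
          · exact Or.inl (by rw [h1, h2, compl_compl])⟩ }
  let rep : Set I → Set I := fun T => (Quotient.mk s T).out
  have rep1 : ∀ T, rep T = T ∨ rep T = Tᶜ := fun T => Quotient.mk_out (s := s) T
  have rep2 : ∀ T U, (T = U ∨ T = Uᶜ) → rep T = rep U := by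
    intro T U h
    have : Quotient.mk s T = Quotient.mk s U := Quotient.sound h
    simp only [rep, this]
  have rep3 : ∀ T, rep (rep T) = rep T := fun T => rep2 _ _ (rep1 T)
  have rep4 : ∀ T U, rep T = rep U → (T = U ∨ T = Uᶜ) := by
    intro T U h
    have h1 : s.r T (rep T) := s.symm (rep1 T)
    have h2 : s.r (rep U) U := rep1 U
    rw [h] at h1
    exact s.trans h1 h2
  let K : Type := Set.range fun x => rep (S x)
  let γ : K := ⟨rep B, Sum.inl i0, by rw [← hBS]⟩
  let Y : K → Set I := fun k => if k = γ then Bᶜ else k.1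
  have hYrep : ∀ k, rep (Y k) = k.1 := by
    intro k
    by_cases hk : k = γ
    · simp only [Y, if_pos hk]
      rw [hk]
      exact rep2 _ _ (Or.inr rfl)
    · simp only [Y, if_neg hk]
      obtain ⟨_, x, rfl⟩ := k
      exact rep3 _
  have hYγ : Y γ = Bᶜ := by simp [Y]
  have hYPN : ∀ k, PN (Y k) := by
    intro k
    by_cases hk : k = γ
    · simp only [Y, if_pos hk]
      exact PNc _ hBPN
    · simp only [Y, if_neg hk]
      obtain ⟨_, x, rfl⟩ := k
      rcases rep1 (S x) with h | h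
      · simp only [h]; exact hSPN x
      · simp only [h]; exact PNc _ (hSPN x)
  have hkγ : ∀ k, k ≠ γ → Y k ≠ B ∧ Y k ≠ Bᶜ := by
    intro k hk
    refine ⟨fun h => hk (Subtype.ext ?_), fun h => hk (Subtype.ext ?_)⟩
    · rw [← hYrep k, h]
    · rw [← hYrep k, h]; exact rep2 _ _ (Or.inr rfl)
  have hkl : ∀ k l, k ≠ l → Y k ≠ Y l ∧ Y k ≠ (Y l)ᶜ := by
    intro k l hk
    refine ⟨fun h => hk (Subtype.ext ?_), fun h => hk (Subtype.ext ?_)⟩
    · rw [← hYrep k, h, hYrep l]
    · rw [← hYrep k, h, ← hYrep l]; exact rep2 _ _ (Or.inr rfl)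
  -- it suffices to have a labelling with the isometries for the sets `Y k`
  have suff : ∀ f : ℍ → I, (∀ k, ∃ h : SL(2, ℝ), ∀ p, (f p ∈ B ↔ f (h • p) ∈ Y k)) →
      ∃ A : I → Set ℍ,
        Pairwise (fun j k => Disjoint (A j) (A k)) ∧
        (⋃ j, A j) = Set.univ ∧
        ∀ i, ∃ g : IsometryEquiv ℍ ℍ,
          g '' (⋃ j ∈ L i, A j) = ⋃ j ∈ R i, A j := by
    intro f hf
    refine finish L R B f fun x => ?_
    obtain ⟨h, hh⟩ := hf ⟨rep (S x), x, rfl⟩
    obtain ⟨c, hc⟩ := hf γ
    have h1 := rep4 _ _ (hYrep ⟨rep (S x), x, rfl⟩ : rep (Y ⟨rep (S x), x, rfl⟩) = rep (S x))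
    rcases h1 with h1 | h1
    · refine ⟨h, fun p => ?_⟩
      rw [hh p, h1]
    · refine ⟨h * c, fun p => ?_⟩
      have h2 := hc p
      have h3 := hh (c • p)
      rw [hYγ] at h2
      rw [h1] at h3
      rw [mul_smul]
      simp only [Set.mem_compl_iff] at h2 h3
      change _ ↔ f (h • c • p) ∈ S x
      tauto
  by_cases hone : ∀ k, k = γ
  · -- only one complementary pair
    obtain ⟨b, hb⟩ := hBPN.1
    obtain ⟨b', hb'⟩ := (Set.ne_univ_iff_exists_notMem B).1 hBPN.2
    refine suff (fun z => if Even ⌊z.re⌋ then b else b') fun k => ⟨T1, fun p => ?_⟩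
    rw [hone k, hYγ, T1_smul_re, Int.floor_add_one]
    by_cases he : Even ⌊p.re⌋
    · have : ¬ Even (⌊p.re⌋ + 1) := by
        rw [Int.even_add_one]; exact not_not.2 he
      simp [he, this, hb, hb']
    · have : Even (⌊p.re⌋ + 1) := by
        rw [Int.even_add_one]; exact he
      simp [he, this, hb, hb']
  · push Not at hone
    obtain ⟨k0, hk0⟩ := hone
    have hKc : #K ≤ 𝔠 := by
      calc #K ≤ #(M ⊕ M) := Cardinal.mk_range_le
        _ = #M + #M := by simp
        _ ≤ 𝔠 + 𝔠 := add_le_add hM hM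
        _ = 𝔠 := Cardinal.continuum_add_self
    obtain ⟨t, ht⟩ := exists_indep hKc
    have hinj := rho_injective ht
    obtain ⟨f, hf⟩ := exists_labelling ((MulAction.toPermHom SL(2, ℝ) ℍ).comp (rho t)) hk0
      (by
        intro x g h hg hh
        apply hinj
        rw [map_mul, map_mul]
        exact stab_comm x _ _ hg hh)
      (by
        intro x n hn h
        have h1 : (rho t (FreeGroup.of γ ^ n)) • x = x := h
        rw [map_pow] at h1
        have h2 : rho t (FreeGroup.of γ) = Gm (t γ) := by simp [rho]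
        rw [h2] at h1
        exact Gm_pow_ne _ _ hn x h1)
      hBPN hYPN hkγ hkl
    exact suff f fun k => ⟨rho t (FreeGroup.of k), fun p => hf p k⟩

end Pool.Agent.N545.HC
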