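import Pool.Agent.N545.HC.Stream

/-! Labelling a set on which a free group acts with commutative stabilisers. -/

set_option autoImplicit false

namespace Pool.Agent.N545.HC

open Function

universe u v

variable {K : Type u}

/-- The periodic word with the period `L`. -/
def perW (L : List (K × Bool)) (hL : L ≠ []) (hc : FreeGroup.IsCyclicallyReduced L) : Om K :=
  ⟨fun i => L[i % L.length]'(Nat.mod_lt _ (List.length_pos_iff.2 hL)), fun n => by
    have hlen := List.length_pos_iff.2 hL
    have hlt := Nat.mod_lt n hlen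
    obtain ⟨h1, h2⟩ := hc
    intro h
    have key : (L[n % L.length]'hlt).1 = (L[(n + 1) % L.length]'(Nat.mod_lt _ hlen)).1 →
        (L[n % L.length]'hlt).2 = (L[(n + 1) % L.length]'(Nat.mod_lt _ hlen)).2 := by
      rcases Nat.lt_or_ge (n % L.length + 1) L.length with h' | h'
      · have e : (n + 1) % L.length = n % L.length + 1 := by
          rw [Nat.add_mod, Nat.mod_eq_of_lt (show 1 < L.length by omega), Nat.mod_eq_of_lt h']
        simp only [e]
        exact List.isChain_iff_getElem.1 h1 _ h'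
      · have e0 : n % L.length = L.length - 1 := by omega
        have e : (n + 1) % L.length = 0 := by
          rw [Nat.add_mod, e0]
          rcases Nat.lt_or_ge 1 L.length with h'' | h''
          · rw [Nat.mod_eq_of_lt h'', Nat.sub_add_cancel hlen, Nat.mod_self]
          · have : L.length = 1 := by omega
            simp [this]
        simp only [e, e0]
        apply h2
        · rw [List.getLast?_eq_getElem?]
          simp
        · rw [List.head?_eq_getElem?]
          simp [hlen]
    unfold linv at h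
    have h3 := congrArg Prod.fst h
    have h4 := congrArg Prod.snd h
    simp only at h3 h4
    have h5 := key h3.symm
    rw [← h5] at h4
    simp at h4⟩

lemma perW_apply (L : List (K × Bool)) (hL : L ≠ []) (hc : FreeGroup.IsCyclicallyReduced L)
    (i : ℕ) : (perW L hL hc).1 i = L[i % L.length]'(Nat.mod_lt _ (List.length_pos_iff.2 hL)) := rfl

lemma shift_perW (L : List (K × Bool)) (hL : L ≠ []) (hc : FreeGroup.IsCyclicallyReduced L) :
    shift^[L.length] (perW L hL hc) = perW L hL hc := by
  refine Om.ext fun i => ?_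
  rw [shift_iter, perW_apply, perW_apply]
  congr 1
  simp

lemma act_mk_single (x : K × Bool) (w : Om K) : act (FreeGroup.mk [x]) w = mulL x w := by
  obtain ⟨k, b⟩ := x
  cases b with
  | true => exact act_of k w
  | false => exact act_of_inv k w

lemma act_prefix (L : List (K × Bool)) : ∀ v : Om K, (∀ i (h : i < L.length), v.1 i = L[i]) →
    act (FreeGroup.mk L) (shift^[L.length] v) = v := by
  induction L with
  | nil => intro v _; simp [← FreeGroup.one_eq_mk]
  | cons x L ih =>
    intro v hv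
    have e : FreeGroup.mk (x :: L) = FreeGroup.mk [x] * FreeGroup.mk L := by
      rw [FreeGroup.mul_mk]; rfl
    rw [e, map_mul, List.length_cons, iterate_succ_apply, Equiv.Perm.mul_apply, ih (shift v) ?_,
      act_mk_single]
    · have h0 : v.1 0 = x := hv 0 (by simp)
      have h1 : (shift v).1 0 ≠ linv x := by rw [← h0]; exact v.2 0
      rw [mulL_neg h1, cons_shift _ _ _ h0]
    · intro i hi
      rw [shift_apply]
      exact hv (i + 1) (by simpa using hi)

lemma act_perW (L : List (K × Bool)) (hL : L ≠ []) (hc : FreeGroup.IsCyclicallyReduced L) :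
    act (FreeGroup.mk L) (perW L hL hc) = perW L hL hc := by
  have h := act_prefix L (perW L hL hc) (fun i hi => by
    rw [perW_apply]; congr 1; exact Nat.mod_eq_of_lt hi)
  rwa [shift_perW] at h

lemma mk_replicate_true (k : K) (n : ℕ) :
    FreeGroup.mk (List.replicate n (k, true)) = FreeGroup.of k ^ n := by
  induction n with
  | zero => rfl
  | succ n ih => rw [List.replicate_succ, pow_succ', ← ih]; rfl

lemma mk_replicate_false (k : K) (n : ℕ) :
    FreeGroup.mk (List.replicate n (k, false)) = (FreeGroup.of k)⁻¹ ^ n := by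
  induction n with
  | zero => rfl
  | succ n ih => rw [List.replicate_succ, pow_succ', ← ih]; rfl

/-- A nontrivial element that is not conjugate to a power of `γ` fixes an eventually good periodic
word. -/
lemma exists_fixed {γ : K} {w : FreeGroup K} (hw : w ≠ 1)
    (hγ : ∀ (u : FreeGroup K) (n : ℕ), 0 < n → w ≠ u * FreeGroup.of γ ^ n * u⁻¹ ∧
      w ≠ u * (FreeGroup.of γ)⁻¹ ^ n * u⁻¹) : ∃ v, EG γ v ∧ act w v = v := by
  classical
  set L := w.toWord
  set C := FreeGroup.reduceCyclically L with hC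
  set u := FreeGroup.mk (FreeGroup.reduceCyclically.conjugator L) with hu
  have hwu : w = u * FreeGroup.mk C * u⁻¹ := by
    rw [hu, hC, FreeGroup.inv_mk, FreeGroup.mul_mk, FreeGroup.mul_mk,
      FreeGroup.reduceCyclically.conj_conjugator_reduceCyclically]
    exact FreeGroup.mk_toWord.symm
  have hcr : FreeGroup.IsCyclicallyReduced C :=
    FreeGroup.reduceCyclically.isCyclicallyReduced FreeGroup.isReduced_toWord
  have hCne : C ≠ [] := by
    intro h
    apply hw
    rw [hwu, h, ← FreeGroup.one_eq_mk]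
    simp
  have hlen := List.length_pos_iff.2 hCne
  have hgp : GP γ (perW C hCne hcr) := by
    refine ⟨⟨C.length, hlen, shift_perW _ _ _⟩, fun b => ?_⟩
    by_contra hcon
    push Not at hcon
    have hrep : C = List.replicate C.length (γ, b) := by
      refine List.eq_replicate_of_mem fun x hx => ?_
      obtain ⟨i, hi, rfl⟩ := List.getElem_of_mem hx
      have := hcon i
      rw [perW_apply] at this
      rw [← this]
      congr 1
      exact (Nat.mod_eq_of_lt hi).symm
    cases b with
    | true =>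
      apply (hγ u C.length hlen).1
      rw [← mk_replicate_true, ← hrep]
      exact hwu
    | false =>
      apply (hγ u C.length hlen).2
      rw [← mk_replicate_false, ← hrep]
      exact hwu
  refine ⟨act u (perW C hCne hcr), EG.act u ⟨0, hgp⟩, ?_⟩
  conv_lhs => rw [hwu]
  rw [map_mul, map_mul, map_inv]
  have e : (act u)⁻¹ (act u (perW C hCne hcr)) = perW C hCne hcr := (act u).symm_apply_apply _
  simp only [Equiv.Perm.mul_apply]
  rw [e, act_perW]

/-- Commutative subgroups of free groups are cyclic. -/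
lemma cyclic_of_comm (S : Subgroup (FreeGroup K)) (hS : ∀ g ∈ S, ∀ h ∈ S, g * h = h * g) :
    ∃ w ∈ S, ∀ g ∈ S, ∃ n : ℤ, g = w ^ n := by
  let e := IsFreeGroup.toFreeGroup (G := S)
  have hcomm : ∀ g h : S, g * h = h * g := fun g h =>
    Subtype.ext (hS g.1 g.2 h.1 h.2)
  have hsub : ∀ a b : IsFreeGroup.Generators S, a = b := by
    classical
    intro a b
    by_contra hab
    have h1 : FreeGroup.of a * FreeGroup.of b = FreeGroup.of b * FreeGroup.of a := by
      apply e.symm.injective
      rw [map_mul, map_mul, hcomm]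
    have h2 := congrArg FreeGroup.toWord h1
    rw [FreeGroup.toWord_mul, FreeGroup.toWord_mul, FreeGroup.toWord_of, FreeGroup.toWord_of] at h2
    simp [FreeGroup.reduce.cons, hab, Ne.symm hab] at h2
  by_cases hne : Nonempty (IsFreeGroup.Generators S)
  · obtain ⟨a⟩ := hne
    refine ⟨(e.symm (FreeGroup.of a)).1, (e.symm (FreeGroup.of a)).2, fun g hg => ?_⟩
    have key : ∀ x : FreeGroup (IsFreeGroup.Generators S), ∃ n : ℤ, x = FreeGroup.of a ^ n := by
      intro x
      induction x using FreeGroup.induction_on with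
      | C1 => exact ⟨0, by simp⟩
      | of b => exact ⟨1, by rw [hsub b a]; simp⟩
      | inv_of b _ => exact ⟨-1, by rw [hsub b a]; simp⟩
      | mul x y hx hy =>
        obtain ⟨n, hn⟩ := hx
        obtain ⟨m, hm⟩ := hy
        exact ⟨n + m, by rw [hn, hm, zpow_add]⟩
    obtain ⟨n, hn⟩ := key (e ⟨g, hg⟩)
    refine ⟨n, ?_⟩
    have h3 : (⟨g, hg⟩ : S) = e.symm (FreeGroup.of a) ^ n := by
      rw [← map_zpow, ← hn, MulEquiv.symm_apply_apply]
    have h4 := congrArg Subtype.val h3
    simpa using h4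
  · rw [not_nonempty_iff] at hne
    refine ⟨1, S.one_mem, fun g hg => ⟨0, ?_⟩⟩
    have h3 : (⟨g, hg⟩ : S) = 1 := by
      apply e.injective
      exact Subsingleton.elim _ _
    simpa using congrArg Subtype.val h3

/-- A constant word. -/
def constW (k : K) : Om K := ⟨fun _ => (k, true), fun _ => by simp [linv]⟩

lemma EG_constW {γ k : K} (hk : k ≠ γ) : EG γ (constW k) :=
  ⟨0, ⟨1, one_pos, Om.ext fun _ => rfl⟩, fun b => ⟨0, fun h => hk (congrArg Prod.fst h)⟩⟩

/-- The point stabilisers fix eventually good periodic words. -/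
lemma exists_fixed_stab {γ k0 : K} (hk0 : k0 ≠ γ) (S : Subgroup (FreeGroup K))
    (hS : ∀ g ∈ S, ∀ h ∈ S, g * h = h * g)
    (hγ : ∀ (u : FreeGroup K) (n : ℕ), 0 < n → u * FreeGroup.of γ ^ n * u⁻¹ ∉ S ∧
      u * (FreeGroup.of γ)⁻¹ ^ n * u⁻¹ ∉ S) : ∃ v, EG γ v ∧ ∀ g ∈ S, act g v = v := by
  obtain ⟨w, hw, hgen⟩ := cyclic_of_comm S hS
  by_cases h1 : w = 1
  · refine ⟨constW k0, EG_constW hk0, fun g hg => ?_⟩
    obtain ⟨n, hn⟩ := hgen g hg
    rw [hn, h1]; simp
  · obtain ⟨v, hv, hfix⟩ := exists_fixed h1 (γ := γ) (fun u n hn => ⟨fun h => (hγ u n hn).1 (h ▸ hw),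
      fun h => (hγ u n hn).2 (h ▸ hw)⟩)
    refine ⟨v, hv, fun g hg => ?_⟩
    obtain ⟨n, hn⟩ := hgen g hg
    rw [hn]
    have hst : w ∈ (MulAction.stabilizer (Equiv.Perm (Om K)) v).comap act := hfix
    exact Subgroup.zpow_mem _ hst n

/-- The labelling of a set on which a free group acts with commutative stabilisers that contain no
conjugates of powers of `γ`. -/
theorem exists_labelling {X : Type v} {I : Type*} (ρ : FreeGroup K →* Equiv.Perm X) {γ k0 : K}
    (hk0 : k0 ≠ γ) (hcomm : ∀ x g h, ρ g x = x → ρ h x = x → g * h = h * g)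
    (hγ : ∀ x (n : ℕ), 0 < n → ρ (FreeGroup.of γ ^ n) x ≠ x)
    {B : Set I} {Y : K → Set I} (hB : PN B) (hY : ∀ k, PN (Y k))
    (hk : ∀ k, k ≠ γ → Y k ≠ B ∧ Y k ≠ Bᶜ)
    (hkl : ∀ k l, k ≠ l → Y k ≠ Y l ∧ Y k ≠ (Y l)ᶜ) :
    ∃ f : X → I, ∀ x k, (f x ∈ B ↔ f (ρ (FreeGroup.of k) x) ∈ Y k) := by
  classical
  obtain ⟨F, hF⟩ := exists_label' hB hY hk hkl
  -- orbits
  let s : Setoid X := 
    { r := fun x y => ∃ g, ρ g x = y
      iseqv := ⟨fun x => ⟨1, by simp⟩, fun {x y} ⟨g, hg⟩ => ⟨g⁻¹, by
        rw [map_inv, ← hg]; exact (ρ g).symm_apply_apply x⟩, fun {x y z} ⟨g, hg⟩ ⟨h, hh⟩ =>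
        ⟨h * g, by rw [map_mul, Equiv.Perm.mul_apply, hg, hh]⟩⟩ }
  let rep : X → X := fun x => (Quotient.mk s x).out
  have hrep : ∀ x, ∃ g, ρ g (rep x) = x := fun x => Quotient.mk_out (s := s) x
  have hrepeq : ∀ x g, rep (ρ g x) = rep x := by
    intro x g
    have : Quotient.mk s (ρ g x) = Quotient.mk s x := by
      apply Quotient.sound
      exact s.symm ⟨g, rfl⟩
    simp only [rep, this]
  choose G hG using hrep
  -- fixed words
  have hst : ∀ x : X, ∃ v, EG γ v ∧ ∀ g, ρ g x = x → act g v = v := by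
    intro x
    obtain ⟨v, hv, h⟩ := exists_fixed_stab hk0 ((MulAction.stabilizer (Equiv.Perm X) x).comap ρ)
      (fun g hg h hh => hcomm x g h hg hh) (by
        intro u n hn
        have key : ∀ z : X, ρ (FreeGroup.of γ ^ n) z ≠ z := fun z => hγ z n hn
        have hinv : ρ u⁻¹ (ρ u (ρ u⁻¹ x)) = ρ u⁻¹ x := by
          rw [map_inv]; exact (ρ u).symm_apply_apply _
        constructor
        · intro hmem
          have hmem' : ρ (u * FreeGroup.of γ ^ n * u⁻¹) x = x := hmem
          rw [map_mul, map_mul, Equiv.Perm.mul_apply, Equiv.Perm.mul_apply] at hmem'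
          apply key (ρ u⁻¹ x)
          have h2 := congrArg (ρ u⁻¹) hmem'
          rwa [show ρ u⁻¹ (ρ u (ρ (FreeGroup.of γ ^ n) (ρ u⁻¹ x))) =
            ρ (FreeGroup.of γ ^ n) (ρ u⁻¹ x) by
              rw [map_inv]; exact (ρ u).symm_apply_apply _] at h2
        · intro hmem
          have hmem' : ρ (u * (FreeGroup.of γ)⁻¹ ^ n * u⁻¹) x = x := hmem
          rw [map_mul, map_mul, Equiv.Perm.mul_apply, Equiv.Perm.mul_apply] at hmem'
          have h2 := congrArg (ρ u⁻¹) hmem'
          rw [show ρ u⁻¹ (ρ u (ρ ((FreeGroup.of γ)⁻¹ ^ n) (ρ u⁻¹ x))) =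
            ρ ((FreeGroup.of γ)⁻¹ ^ n) (ρ u⁻¹ x) by
              rw [map_inv]; exact (ρ u).symm_apply_apply _] at h2
          apply key (ρ u⁻¹ x)
          have h3 := congrArg (ρ (FreeGroup.of γ ^ n)) h2
          rw [← Equiv.Perm.mul_apply, ← map_mul, inv_pow, mul_inv_cancel, map_one,
            Equiv.Perm.one_apply] at h3
          exact h3.symm)
    exact ⟨v, hv, fun g hg => h g hg⟩
  choose V hV hVfix using hst
  have hwell : ∀ x g h, ρ g (rep x) = ρ h (rep x) → act g (V (rep x)) = act h (V (rep x)) := by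
    intro x g h hgh
    have h1 : ρ (h⁻¹ * g) (rep x) = rep x := by
      rw [map_mul, Equiv.Perm.mul_apply, hgh, map_inv]
      exact (ρ h).symm_apply_apply _
    have h2 := hVfix _ _ h1
    have h3 := congrArg (act h) h2
    rw [← Equiv.Perm.mul_apply, ← map_mul, mul_inv_cancel_left] at h3
    exact h3
  refine ⟨fun x => F (act (G x) (V (rep x))), fun x k => ?_⟩
  have h1 := hF (act (G x) (V (rep x))) (EG.act _ (hV _)) k
  rw [← Equiv.Perm.mul_apply, ← map_mul] at h1
  have h2 : act (FreeGroup.of k * G x) (V (rep x)) =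
      act (G (ρ (FreeGroup.of k) x)) (V (rep x)) := by
    apply hwell
    rw [map_mul, Equiv.Perm.mul_apply, hG x]
    have h3 := hG (ρ (FreeGroup.of k) x)
    rw [hrepeq] at h3
    exact h3.symm
  rw [h2] at h1
  simp only [hrepeq]
  exact h1

end Pool.Agent.N545.HC
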