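import Mathlib

/-! Labelling the infinite reduced words over an alphabet: the combinatorial part of the solution
of systems of congruences. -/

set_option autoImplicit false

namespace Pool.Agent.N545.HC

open Function

variable {K : Type*}

/-- The inverse letter. -/
def linv (x : K × Bool) : K × Bool := (x.1, !x.2)

lemma linv_linv (x : K × Bool) : linv (linv x) = x := by simp [linv]

lemma linv_ne (x : K × Bool) : linv x ≠ x := by
  intro h
  have := congrArg Prod.snd h
  simp [linv] at this

/-- Infinite reduced words. -/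
def Om (K : Type*) := {w : ℕ → K × Bool // ∀ n, w (n + 1) ≠ linv (w n)}

lemma Om.ext {v w : Om K} (h : ∀ n, v.1 n = w.1 n) : v = w := Subtype.ext (funext h)

/-- Deleting the first letter. -/
def shift (w : Om K) : Om K := ⟨fun n => w.1 (n + 1), fun n => w.2 (n + 1)⟩

/-- Adding a first letter. -/
def cons (x : K × Bool) (w : Om K) (h : w.1 0 ≠ linv x) : Om K :=
  ⟨fun n => Nat.casesOn n x (fun m => w.1 m), fun n => by cases n with
    | zero => exact h
    | succ m => exact w.2 m⟩

lemma shift_apply (w : Om K) (n : ℕ) : (shift w).1 n = w.1 (n + 1) := rfl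

lemma cons_zero (x : K × Bool) (w : Om K) (h : w.1 0 ≠ linv x) : (cons x w h).1 0 = x := rfl

lemma cons_succ (x : K × Bool) (w : Om K) (h : w.1 0 ≠ linv x) (n : ℕ) :
    (cons x w h).1 (n + 1) = w.1 n := rfl

lemma shift_cons (x : K × Bool) (w : Om K) (h : w.1 0 ≠ linv x) : shift (cons x w h) = w :=
  Om.ext fun _ => rfl

lemma cons_shift (x : K × Bool) (w : Om K) (h : (shift w).1 0 ≠ linv x) (hx : w.1 0 = x) :
    cons x (shift w) h = w := by
  refine Om.ext fun n => ?_
  cases n with
  | zero => exact hx.symm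
  | succ m => rfl

lemma shift_iter (w : Om K) (m i : ℕ) : (shift^[m] w).1 i = w.1 (i + m) := by
  induction m generalizing w with
  | zero => rfl
  | succ m ih => rw [iterate_succ_apply, ih, shift_apply]; congr 1

open Classical in
/-- The action of a letter. -/
noncomputable def mulL (x : K × Bool) (w : Om K) : Om K :=
  if h : w.1 0 = linv x then shift w else cons x w h

lemma mulL_pos {x : K × Bool} {w : Om K} (h : w.1 0 = linv x) : mulL x w = shift w := dif_pos h

lemma mulL_neg {x : K × Bool} {w : Om K} (h : w.1 0 ≠ linv x) : mulL x w = cons x w h := dif_neg h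

lemma mulL_linv (x : K × Bool) (w : Om K) : mulL (linv x) (mulL x w) = w := by
  by_cases h : w.1 0 = linv x
  · rw [mulL_pos h]
    have h1 : (shift w).1 0 ≠ linv (linv x) := by
      rw [← h]; exact w.2 0
    rw [mulL_neg h1, cons_shift _ _ _ h]
  · rw [mulL_neg h, mulL_pos (by rw [cons_zero, linv_linv]), shift_cons]

/-- The permutation given by a generator. -/
noncomputable def perm (k : K) : Equiv.Perm (Om K) where
  toFun := mulL (k, true)
  invFun := mulL (k, false)
  left_inv := fun w => mulL_linv (k, true) w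
  right_inv := fun w => mulL_linv (k, false) w

/-- The action of the free group on infinite reduced words. -/
noncomputable def act : FreeGroup K →* Equiv.Perm (Om K) := FreeGroup.lift perm

lemma act_of (k : K) (w : Om K) : act (FreeGroup.of k) w = mulL (k, true) w := by
  simp [act, perm]

lemma act_of_inv (k : K) (w : Om K) : act (FreeGroup.of k)⁻¹ w = mulL (k, false) w := by
  rw [map_inv]
  simp only [act, FreeGroup.lift_apply_of]
  rfl

/-- Good periodic words: periodic and not a constant power of the letter `γ`. -/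
def GP (γ : K) (w : Om K) : Prop :=
  (∃ n, 0 < n ∧ shift^[n] w = w) ∧ ∀ b, ∃ i, w.1 i ≠ (γ, b)

lemma GP.shift {γ : K} {w : Om K} (h : GP γ w) : GP γ (shift w) := by
  obtain ⟨⟨n, hn, hw⟩, hb⟩ := h
  refine ⟨⟨n, hn, ?_⟩, fun b => ?_⟩
  · rw [← iterate_succ_apply, iterate_succ_apply', hw]
  · by_contra hcon
    push Not at hcon
    obtain ⟨i, hi⟩ := hb b
    apply hi
    have h1 : w.1 i = w.1 (i + n) := by
      conv_lhs => rw [← hw]
      exact shift_iter w n i
    rw [h1]
    have h2 := hcon (i + n - 1)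
    rw [shift_apply] at h2
    rwa [Nat.sub_add_cancel (by omega)] at h2

/-- Eventually good periodic words. -/
def EG (γ : K) (w : Om K) : Prop := ∃ m, GP γ (Pool.Agent.N545.HC.shift^[m] w)

lemma EG.shift {γ : K} {w : Om K} (h : EG γ w) : EG γ (shift w) := by
  obtain ⟨m, h⟩ := h
  refine ⟨m, ?_⟩
  rw [← iterate_succ_apply, iterate_succ_apply']
  exact h.shift

lemma EG.cons {γ : K} {w : Om K} (h : EG γ w) (x : K × Bool) (hx : w.1 0 ≠ linv x) :
    EG γ (cons x w hx) := by
  obtain ⟨m, h⟩ := h
  refine ⟨m + 1, ?_⟩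
  rw [iterate_succ_apply, shift_cons]
  exact h

lemma EG.mulL {γ : K} {w : Om K} (h : EG γ w) (x : K × Bool) : EG γ (mulL x w) := by
  by_cases hx : w.1 0 = linv x
  · rw [mulL_pos hx]; exact h.shift
  · rw [mulL_neg hx]; exact h.cons x hx

lemma EG.act {γ : K} (g : FreeGroup K) : ∀ {w : Om K}, EG γ w → EG γ (act g w) := by
  induction g using FreeGroup.induction_on with
  | C1 => intro w h; simpa using h
  | of k => intro w h; rw [act_of]; exact h.mulL _
  | inv_of k _ => intro w h; rw [act_of_inv]; exact h.mulL _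
  | mul a b ha hb => intro w h; rw [map_mul]; exact ha (hb h)

/-! ### Labels -/

section Label

variable {I : Type*} (B : Set I) (Y : K → Set I)

/-- The set that decides about the edge with the letter `x` at its upper end. -/
def up (x : K × Bool) : Set I := if x.2 then Y x.1 else B

/-- The set that decides about the edge with the letter `x` at its lower end. -/
def low (x : K × Bool) : Set I := if x.2 then B else Y x.1

/-- The relation between the labels of the ends of an edge. -/
def Rel (x : K × Bool) (a b : I) : Prop := a ∈ up B Y x ↔ b ∈ low B Y x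

/-- `S` is a proper nonempty set. -/
def PN (S : Set I) : Prop := S.Nonempty ∧ S ≠ Set.univ

lemma PN.pick {S : Set I} (h : PN S) (p : Prop) : ∃ a, a ∈ S ↔ p := by
  by_cases hp : p
  · obtain ⟨a, ha⟩ := h.1
    exact ⟨a, by simp [ha, hp]⟩
  · obtain ⟨a, ha⟩ := (Set.ne_univ_iff_exists_notMem S).1 h.2
    exact ⟨a, by simp [ha, hp]⟩

/-- If `S`, `T` are neither equal nor complementary, and two pairs of truth values are different,
then one of the pairs is realised by a point. -/
lemma two_pairs {S T : Set I} (hS : PN S) (h1 : S ≠ T) (h2 : S ≠ Tᶜ)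
    (φ : Prop → Prop) : ∃ v : Prop, ∃ a, (a ∈ S ↔ φ v) ∧ (a ∈ T ↔ v) := by
  by_contra hcon
  have hTr : ∀ a, (a ∈ S ↔ φ True) → a ∈ T → False := fun a h3 h4 =>
    hcon ⟨True, a, h3, iff_of_true h4 trivial⟩
  have hFa : ∀ a, (a ∈ S ↔ φ False) → a ∉ T → False := fun a h3 h4 =>
    hcon ⟨False, a, h3, iff_of_false h4 id⟩
  -- for `a ∈ T`, `a ∈ S` is the negation of `φ True`
  have e1 : ∀ a ∈ T, (a ∈ S ↔ ¬ φ True) := by
    intro a ha
    by_contra hc
    exact hTr a (by tauto) ha
  have e2 : ∀ a ∉ T, (a ∈ S ↔ ¬ φ False) := by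
    intro a ha
    by_contra hc
    exact hFa a (by tauto) ha
  by_cases p : φ True <;> by_cases q : φ False
  · obtain ⟨a, ha⟩ := hS.1
    by_cases haT : a ∈ T
    · have := e1 a haT; tauto
    · have := e2 a haT; tauto
  · apply h2
    ext a
    by_cases haT : a ∈ T
    · have := e1 a haT; simp only [Set.mem_compl_iff]; tauto
    · have := e2 a haT; simp only [Set.mem_compl_iff]; tauto
  · apply h1
    ext a
    by_cases haT : a ∈ T
    · have := e1 a haT; tauto
    · have := e2 a haT; tauto
  · apply hS.2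
    ext a
    by_cases haT : a ∈ T
    · have := e1 a haT; simp only [Set.mem_univ]; tauto
    · have := e2 a haT; simp only [Set.mem_univ]; tauto

variable {B Y}

lemma PN_up (hB : PN B) (hY : ∀ k, PN (Y k)) (x : K × Bool) : PN (up B Y x) := by
  unfold up; split_ifs; exacts [hY _, hB]

lemma PN_low (hB : PN B) (hY : ∀ k, PN (Y k)) (x : K × Bool) : PN (low B Y x) := by
  unfold low; split_ifs; exacts [hB, hY _]

/-- Labels on a cycle. -/
lemma cycle_label (hB : PN B) (hY : ∀ k, PN (Y k)) (w : Om K) (n : ℕ) (hn : 0 < n)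
    (hw : shift^[n] w = w) (h1 : low B Y (w.1 (n - 1)) ≠ up B Y (w.1 0))
    (h2 : low B Y (w.1 (n - 1)) ≠ (up B Y (w.1 0))ᶜ) :
    ∃ a : ℕ → I, (∀ i, a (i % n) = a i) ∧ ∀ i, Rel B Y (w.1 i) (a i) (a (i + 1)) := by
  classical
  choose pick hpick using fun (x : K × Bool) (p : Prop) => (PN_low hB hY x).pick p
  -- the truth values of the edges
  let t : Prop → ℕ → Prop := fun v i => Nat.rec v (fun i p => pick (w.1 i) p ∈ up B Y (w.1 (i + 1))) i
  have t0 : ∀ v, t v 0 = v := fun v => rfl
  have tS : ∀ v i, t v (i + 1) = (pick (w.1 i) (t v i) ∈ up B Y (w.1 (i + 1))) := fun v i => rfl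
  obtain ⟨v, a0, ha1, ha2⟩ := two_pairs (PN_low hB hY (w.1 (n - 1))) h1 h2
    (fun v => t v (n - 1))
  let b : ℕ → I := fun i => if i = 0 then a0 else pick (w.1 (i - 1)) (t v (i - 1))
  have b0 : b 0 = a0 := rfl
  have bS : ∀ i, b (i + 1) = pick (w.1 i) (t v i) := fun i => by simp [b]
  have bup : ∀ i, (b i ∈ up B Y (w.1 i) ↔ t v i) := by
    intro i
    cases i with
    | zero => rw [b0, t0]; exact ha2
    | succ i => rw [bS, tS]
  have per : ∀ i, w.1 (i % n) = w.1 i := by
    intro i
    have : ∀ q j, w.1 (j + n * q) = w.1 j := by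
      intro q
      induction q with
      | zero => intro j; rfl
      | succ q ih =>
        intro j
        have h3 : w.1 (j + n * q + n) = w.1 (j + n * q) := by
          have := shift_iter w n (j + n * q)
          rw [hw] at this
          exact this.symm
        calc w.1 (j + n * (q + 1)) = w.1 (j + n * q + n) := congrArg w.1 (by ring)
          _ = w.1 j := by rw [h3, ih]
    conv_rhs => rw [← Nat.mod_add_div i n]
    exact (this _ _).symm
  refine ⟨fun i => b (i % n), fun i => by simp, fun i => ?_⟩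
  have hlt := Nat.mod_lt i hn
  unfold Rel
  rw [← per i, bup]
  rcases Nat.lt_or_ge (i % n + 1) n with h | h
  · have e : (i + 1) % n = i % n + 1 := by
      rw [Nat.add_mod, Nat.mod_eq_of_lt (show 1 < n by omega), Nat.mod_eq_of_lt h]
    simp only [e, bS]
    exact (hpick _ _).symm
  · have e0 : i % n = n - 1 := by omega
    have e : (i + 1) % n = 0 := by
      rw [Nat.add_mod, e0]
      rcases Nat.lt_or_ge 1 n with h' | h'
      · rw [Nat.mod_eq_of_lt h', Nat.sub_add_cancel hn, Nat.mod_self]
      · have : n = 1 := by omega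
        subst this; rfl
    simp only [e, b0, e0]
    exact ha1.symm

/-- Good periodic words have a place where the two sets are in general position. -/
lemma exists_free {γ : K} (hk : ∀ k, k ≠ γ → Y k ≠ B ∧ Y k ≠ Bᶜ)
    (hkl : ∀ k l, k ≠ l → Y k ≠ Y l ∧ Y k ≠ (Y l)ᶜ) {w : Om K} (hw : GP γ w) :
    ∃ j, low B Y (w.1 j) ≠ up B Y (w.1 (j + 1)) ∧ low B Y (w.1 j) ≠ (up B Y (w.1 (j + 1)))ᶜ := by
  obtain ⟨⟨n, hn, hper⟩, hb⟩ := hw
  have per : ∀ i, w.1 (i + n) = w.1 i := by
    intro i
    have := shift_iter w n i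
    rw [hper] at this
    exact this.symm
  by_contra hcon
  push Not at hcon
  -- no change from false to true
  have hft : ∀ j, (w.1 j).2 = false → (w.1 (j + 1)).2 = false := by
    intro j hj
    by_contra hj'
    rw [Bool.not_eq_false] at hj'
    have hne : (w.1 j).1 ≠ (w.1 (j + 1)).1 := by
      intro h
      apply w.2 j
      unfold linv
      rw [hj, Bool.not_false, h, ← hj']
    have h1 := hkl _ _ hne
    have el : low B Y (w.1 j) = Y (w.1 j).1 := by unfold low; simp [hj]
    have eu : up B Y (w.1 (j + 1)) = Y (w.1 (j + 1)).1 := by unfold up; simp [hj']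
    have h2 := hcon j
    rw [el, eu] at h2
    exact h1.2 (h2 h1.1)
  have hconst : ∀ j q, (w.1 j).2 = false → (w.1 (j + q)).2 = false := by
    intro j q hj
    induction q with
    | zero => exact hj
    | succ q ih => exact hft _ ih
  have hmul : ∀ j q, w.1 (j + n * q) = w.1 j := by
    intro j q
    induction q with
    | zero => rfl
    | succ q ih =>
      calc w.1 (j + n * (q + 1)) = w.1 (j + n * q + n) := congrArg w.1 (by ring)
        _ = w.1 j := by rw [per, ih]
  by_cases hall : ∃ j, (w.1 j).2 = false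
  · obtain ⟨j, hj⟩ := hall
    have hf : ∀ i, (w.1 i).2 = false := by
      intro i
      rw [← hmul i j]
      have : i + n * j = j + (i + n * j - j) := by
        have : j ≤ n * j := Nat.le_mul_of_pos_left j hn
        omega
      rw [this]
      exact hconst _ _ hj
    obtain ⟨i, hi⟩ := hb false
    apply hi
    have el : low B Y (w.1 i) = Y (w.1 i).1 := by unfold low; simp [hf i]
    have eu : up B Y (w.1 (i + 1)) = B := by unfold up; simp [hf (i + 1)]
    have h2 := hcon i
    rw [el, eu] at h2
    by_contra hne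
    have hkγ : (w.1 i).1 ≠ γ := by
      intro h
      apply hne
      rw [← h, ← hf i]
    exact (hk _ hkγ).2 (h2 (hk _ hkγ).1)
  · push Not at hall
    have hf : ∀ i, (w.1 i).2 = true := fun i => by simpa using hall i
    obtain ⟨i, hi⟩ := hb true
    apply hi
    have el : low B Y (w.1 (i + n - 1)) = B := by unfold low; simp [hf]
    have eu : up B Y (w.1 (i + n - 1 + 1)) = Y (w.1 i).1 := by
      unfold up
      rw [Nat.sub_add_cancel (by omega), per]; simp [hf]
    have h2 := hcon (i + n - 1)
    rw [el, eu] at h2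
    by_contra hne
    have hkγ : (w.1 i).1 ≠ γ := by
      intro h
      apply hne
      rw [← h, ← hf i]
    have h3 := h2 (fun h => (hk _ hkγ).1 h.symm)
    exact (hk _ hkγ).2 (by rw [h3, compl_compl])

/-- The labelling of all eventually good periodic words. -/
theorem exists_label {γ : K} (hB : PN B) (hY : ∀ k, PN (Y k))
    (hk : ∀ k, k ≠ γ → Y k ≠ B ∧ Y k ≠ Bᶜ)
    (hkl : ∀ k l, k ≠ l → Y k ≠ Y l ∧ Y k ≠ (Y l)ᶜ) :
    ∃ F : Om K → I, ∀ w, EG γ w → Rel B Y (w.1 0) (F w) (F (shift w)) := by
  classical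
  let S : Set (Set (Om K × I)) := {G | (∀ w a a', (w, a) ∈ G → (w, a') ∈ G → a = a') ∧
    ∀ w a, (w, a) ∈ G → ∃ b, (shift w, b) ∈ G ∧ Rel B Y (w.1 0) a b}
  obtain ⟨G, hG⟩ := zorn_subset S (by
    intro c hc hchain
    refine ⟨⋃₀ c, ⟨?_, ?_⟩, fun s hs => Set.subset_sUnion_of_mem hs⟩
    · rintro w a a' ⟨s, hs, h1⟩ ⟨s', hs', h2⟩
      rcases hchain.total hs hs' with h | h
      · exact (hc hs').1 w a a' (h h1) h2
      · exact (hc hs).1 w a a' h1 (h h2)
    · rintro w a ⟨s, hs, h1⟩
      obtain ⟨b, hb, hr⟩ := (hc hs).2 w a h1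
      exact ⟨b, ⟨s, hs, hb⟩, hr⟩)
  have hGS : G ∈ S := hG.prop
  have hmax : ∀ G' ∈ S, G ⊆ G' → G' ⊆ G := fun G' h1 h2 => hG.le_of_ge h1 h2
  -- preimages
  have h1 : ∀ w, (∃ b, (shift w, b) ∈ G) → ∃ a, (w, a) ∈ G := by
    rintro w ⟨b, hb⟩
    by_contra hcon
    push Not at hcon
    obtain ⟨a, ha⟩ := (PN_up hB hY (w.1 0)).pick (b ∈ low B Y (w.1 0))
    have hG' : insert (w, a) G ∈ S := by
      refine ⟨?_, ?_⟩
      · intro v c c' hc hc'
        rcases Set.mem_insert_iff.1 hc with hc | hc <;> rcases Set.mem_insert_iff.1 hc' with hc' | hc'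
        · rw [Prod.mk.injEq] at hc hc'
          rw [hc.2, hc'.2]
        · rw [Prod.mk.injEq] at hc
          rw [hc.1] at hc'
          exact absurd hc' (hcon _)
        · rw [Prod.mk.injEq] at hc'
          rw [hc'.1] at hc
          exact absurd hc (hcon _)
        · exact hGS.1 v c c' hc hc'
      · intro v c hc
        rcases Set.mem_insert_iff.1 hc with hc | hc
        · rw [Prod.mk.injEq] at hc
          obtain ⟨rfl, rfl⟩ := hc
          exact ⟨b, Set.mem_insert_of_mem _ hb, ha⟩
        · obtain ⟨d, hd, hr⟩ := hGS.2 v c hc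
          exact ⟨d, Set.mem_insert_of_mem _ hd, hr⟩
    exact hcon a (hmax _ hG' (Set.subset_insert _ _) (Set.mem_insert _ _))
  have h1' : ∀ m w, (∃ b, (shift^[m] w, b) ∈ G) → ∃ a, (w, a) ∈ G := by
    intro m
    induction m with
    | zero => intro w h; exact h
    | succ m ih =>
      intro w h
      rw [iterate_succ_apply] at h
      exact h1 w (ih _ h)
  -- forward closed
  have h2 : ∀ m w, (∃ a, (w, a) ∈ G) → ∃ a, (shift^[m] w, a) ∈ G := by
    intro m
    induction m with
    | zero => intro w h; exact h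
    | succ m ih =>
      rintro w ⟨a, ha⟩
      rw [iterate_succ_apply]
      obtain ⟨b, hb, -⟩ := hGS.2 w a ha
      exact ih _ ⟨b, hb⟩
  -- periodic points
  have h3 : ∀ w, GP γ w → ∃ a, (w, a) ∈ G := by
    intro w hw
    obtain ⟨j, hj1, hj2⟩ := exists_free (Y := Y) (B := B) hk hkl hw
    have hper : w ∈ periodicPts shift := by
      obtain ⟨⟨n, hn, hn'⟩, -⟩ := hw
      exact ⟨n, hn, hn'⟩
    set v := shift^[j + 1] w with hv
    by_contra hcon
    have hvno : ∀ i, ¬ ∃ a, (shift^[i] v, a) ∈ G := by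
      rintro i h
      exact hcon (h1' (i + (j + 1)) w (by rw [iterate_add_apply]; exact h))
    have hvper : v ∈ periodicPts shift := by
      obtain ⟨n, hn, hn'⟩ := hper
      exact ⟨n, hn, hn'.apply_iterate _⟩
    set n := minimalPeriod shift v with hn
    have hnpos : 0 < n := minimalPeriod_pos_of_mem_periodicPts hvper
    have hvn : shift^[n] v = v := isPeriodicPt_minimalPeriod shift v
    -- the last letter of the period of `v`
    have hlast : v.1 (n - 1) = w.1 j := by
      have e1 : shift^[n] w = w := by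
        have hwv : minimalPeriod shift w = n := by
          rw [hn, hv, minimalPeriod_apply_iterate hper]
        rw [← hwv]
        exact isPeriodicPt_minimalPeriod shift w
      rw [hv, shift_iter]
      have : n - 1 + (j + 1) = j + n := by omega
      rw [this, ← shift_iter, e1]
    have hfirst : v.1 0 = w.1 (j + 1) := by rw [hv, shift_iter, zero_add]
    obtain ⟨a, ha1, ha2⟩ := cycle_label hB hY v n hnpos hvn (by rw [hlast, hfirst]; exact hj1)
      (by rw [hlast, hfirst]; exact hj2)
    have hwell : ∀ i i', shift^[i] v = shift^[i'] v → a i = a i' := by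
      intro i i' h
      have h' : i % n = i' % n := by
        rw [← iterate_mod_minimalPeriod_eq (n := i), ← iterate_mod_minimalPeriod_eq (n := i')] at h
        exact (iterate_eq_iterate_iff_of_lt_minimalPeriod (Nat.mod_lt _ hnpos)
          (Nat.mod_lt _ hnpos)).1 h
      rw [← ha1 i, h', ha1]
    let G' : Set (Om K × I) := G ∪ Set.range fun i => (shift^[i] v, a i)
    have hG' : G' ∈ S := by
      refine ⟨?_, ?_⟩
      · rintro u c c' (hc | ⟨i, hc⟩) (hc' | ⟨i', hc'⟩)
        · exact hGS.1 u c c' hc hc'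
        · rw [Prod.mk.injEq] at hc'
          rw [← hc'.1] at hc
          exact absurd ⟨_, hc⟩ (hvno i')
        · rw [Prod.mk.injEq] at hc
          rw [← hc.1] at hc'
          exact absurd ⟨_, hc'⟩ (hvno i)
        · rw [Prod.mk.injEq] at hc hc'
          rw [← hc.2, ← hc'.2]
          exact hwell i i' (hc.1.trans hc'.1.symm)
      · rintro u c (hc | ⟨i, hc⟩)
        · obtain ⟨d, hd, hr⟩ := hGS.2 u c hc
          exact ⟨d, Or.inl hd, hr⟩
        · rw [Prod.mk.injEq] at hc
          obtain ⟨rfl, rfl⟩ := hc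
          refine ⟨a (i + 1), Or.inr ⟨i + 1, by simp only [iterate_succ_apply']⟩, ?_⟩
          have := ha2 i
          rwa [shift_iter, zero_add]
    have := hmax G' hG' Set.subset_union_left (Or.inr ⟨0, rfl⟩ : (v, a 0) ∈ G')
    exact hvno 0 ⟨_, this⟩
  have h4 : ∀ w, EG γ w → ∃ a, (w, a) ∈ G := by
    rintro w ⟨m, hm⟩
    exact h1' m w (h3 _ hm)
  obtain ⟨i0, -⟩ := hB.1
  refine ⟨fun w => if h : ∃ a, (w, a) ∈ G then h.choose else i0, fun w hw => ?_⟩
  have e1 := h4 w hw
  have e2 := h4 _ hw.shift
  simp only [dif_pos e1, dif_pos e2]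
  obtain ⟨b, hb, hr⟩ := hGS.2 w _ e1.choose_spec
  rwa [hGS.1 _ _ _ e2.choose_spec hb]

/-- The labelling, in terms of the action of the generators. -/
theorem exists_label' {γ : K} (hB : PN B) (hY : ∀ k, PN (Y k))
    (hk : ∀ k, k ≠ γ → Y k ≠ B ∧ Y k ≠ Bᶜ)
    (hkl : ∀ k l, k ≠ l → Y k ≠ Y l ∧ Y k ≠ (Y l)ᶜ) :
    ∃ F : Om K → I, ∀ w, EG γ w → ∀ k, (F w ∈ B ↔ F (act (FreeGroup.of k) w) ∈ Y k) := by
  obtain ⟨F, hF⟩ := exists_label hB hY hk hkl
  refine ⟨F, fun w hw k => ?_⟩
  rw [act_of]
  by_cases h : w.1 0 = linv (k, true)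
  · rw [mulL_pos h]
    have h1 := hF w hw
    unfold Rel at h1
    rw [h] at h1
    simpa [linv, up, low] using h1
  · rw [mulL_neg h]
    have h1 := hF _ (hw.cons _ h)
    unfold Rel at h1
    rw [cons_zero, shift_cons] at h1
    simpa [up, low] using h1.symm

end Label

end Pool.Agent.N545.HC
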